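import Pool.Statements.S01034
import Pool.Agent.K1H18.OR.Main

set_option autoImplicit false
open Pool Pool.MP_2b5620_al

namespace Pool.Agent.S01034

/-- The negation of the preceding statement: For all q ≥ 3, all r ∈ F(Fin q), all word sets W ⊆ F(ℕ): H_2(⟨Fin q ∣ r⟩/V(·); ℤ) is finitely generated over ℤ iff H_2(F_{q-1}/V(F_{q-1}); ℤ) is finitely generated, with V(X) = normal closure of all W-values in X. -/
theorem result :
    ¬ (∀ (q : ℕ), 3 ≤ q → ∀ (r : FreeGroup (Fin q)) (W : Set (FreeGroup ℕ)),
      (Module.Finite ℤ
        (groupHomology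
          (Rep.trivial ℤ
            (PresentedGroup ({r} : Set (FreeGroup (Fin q))) ⧸
              Subgroup.normalClosure
                {g : PresentedGroup ({r} : Set (FreeGroup (Fin q))) |
                  ∃ w ∈ W, ∃ f : ℕ → PresentedGroup ({r} : Set (FreeGroup (Fin q))),
                    FreeGroup.lift f w = g}) ℤ) 2)
      ↔
       Module.Finite ℤ
        (groupHomology
          (Rep.trivial ℤ
            (FreeGroup (Fin (q - 1)) ⧸
              Subgroup.normalClosure
                {g : FreeGroup (Fin (q - 1)) |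
                  ∃ w ∈ W, ∃ f : ℕ → FreeGroup (Fin (q - 1)),
                    FreeGroup.lift f w = g}) ℤ) 2))) := by
  intro h
  obtain ⟨r, W, h1, h2⟩ := Pool.Agent.K1H18.OR.main
  exact h2 ((h 3 le_rfl r W).1 h1)

end Pool.Agent.S01034
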