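import Pool.Statements.S02695
import Pool.Agent.K1H10.MC.Final

set_option autoImplicit false
open Pool Pool.MP_aed2d0_al

namespace Pool.Agent.S02695

open Pool.Agent.K1H10.MC

/-- For every characteristic-zero field F and k ≥ 1, the ratio of central codimensions to ordinary codimensions of k×k matrices over F converges to some real limit between 0 and 1 as n goes to infinity. -/
theorem result :
    ∀ (F : Type) [Field F] [CharZero F] (k : ℕ), 1 ≤ k →
      ∃ α : ℝ, 0 ≤ α ∧ α ≤ 1 ∧
        Filter.Tendsto (fun n : ℕ =>
          (Module.finrank F (Submodule.span F (Set.range (fun σ : Equiv.Perm (Fin n) =>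
              fun x : Fin n → Matrix (Fin k) (Fin k) F =>
                Submodule.mkQ (Subalgebra.toSubmodule (Subalgebra.center F (Matrix (Fin k) (Fin k) F)))
                  (List.ofFn (fun i => x (σ i))).prod))) : ℝ) /
          (Module.finrank F (Submodule.span F (Set.range (fun σ : Equiv.Perm (Fin n) =>
              fun x : Fin n → Matrix (Fin k) (Fin k) F =>
                (List.ofFn (fun i => x (σ i))).prod))) : ℝ))
          Filter.atTop (nhds α) := by
  intro F _ _ k hk
  rcases Nat.lt_or_ge k 2 with hk2 | hk2
  · -- one by one matrices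
    have hk1 : k = 1 := by omega
    subst hk1
    refine ⟨0, le_rfl, zero_le_one, ?_⟩
    have h0 : ∀ n : ℕ, Module.finrank F (Submodule.span F (Set.range
        (fun σ : Equiv.Perm (Fin n) => fun x : Fin n → Matrix (Fin 1) (Fin 1) F =>
          Submodule.mkQ (Subalgebra.toSubmodule (Subalgebra.center F (Matrix (Fin 1) (Fin 1) F)))
            (List.ofFn (fun i => x (σ i))).prod))) = 0 := by
      intro n
      have : Submodule.span F (Set.range
        (fun σ : Equiv.Perm (Fin n) => fun x : Fin n → Matrix (Fin 1) (Fin 1) F =>
          Submodule.mkQ (Subalgebra.toSubmodule (Subalgebra.center F (Matrix (Fin 1) (Fin 1) F)))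
            (List.ofFn (fun i => x (σ i))).prod)) = ⊥ := by
        rw [eq_bot_iff, Submodule.span_le]
        rintro _ ⟨σ, rfl⟩
        rw [SetLike.mem_coe, Submodule.mem_bot]
        funext x
        show Submodule.Quotient.mk _ = 0
        rw [Submodule.Quotient.mk_eq_zero, mem_center_iff']
        refine ⟨(List.ofFn (fun i => x (σ i))).prod 0 0, fun p q => ?_⟩
        have hp : p = 0 := Subsingleton.elim _ _
        have hq : q = 0 := Subsingleton.elim _ _
        subst hp hq
        simp
      rw [this, finrank_bot]
    simp only [h0]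
    simp
  · have hne : Nonempty (Fin k) := ⟨⟨0, by omega⟩⟩
    have hk2' : (2 : ℝ) ≤ k := by exact_mod_cast hk2
    have hlim := (main_limit F k hk2).const_sub 1
    refine ⟨1 - 1 / (k : ℝ) ^ 2, ?_, ?_, ?_⟩
    · rw [sub_nonneg, div_le_one (by positivity)]
      nlinarith
    · have : 0 ≤ 1 / (k : ℝ) ^ 2 := by positivity
      linarith
    refine hlim.congr' ?_
    filter_upwards with n
    rw [← map_Lc]
    have h1 := finrank_central (F := F) (ι := Fin k) n
    have h2 := finrank_PP (F := F) (ι := Fin k) n
    have h3 : Submodule.span F (Set.range (fun σ : Equiv.Perm (Fin n) =>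
              fun x : Fin n → Matrix (Fin k) (Fin k) F =>
                (List.ofFn (fun i => x (σ i))).prod)) = PP' F (Fin k) n := rfl
    rw [h3, h2]
    have hQpos : (Module.finrank F (Q F (Fin k) (Fin (n + 1))) : ℝ) ≠ 0 := by
      rw [← h2, Nat.cast_ne_zero]
      intro h0
      have hfin : FiniteDimensional F (PP' F (Fin k) n) := by
        unfold PP'
        exact FiniteDimensional.span_of_finite F (Set.finite_range _)
      rw [Submodule.finrank_eq_zero] at h0
      have h5 : mon F (Fin k) (1 : Equiv.Perm (Fin n)) ∈ PP' F (Fin k) n :=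
        Submodule.subset_span ⟨1, rfl⟩
      rw [h0, Submodule.mem_bot] at h5
      have h6 := congrFun h5 (fun _ => 1)
      have h7 : mon F (Fin k) (1 : Equiv.Perm (Fin n)) (fun _ => 1) = 1 := by
        unfold mon
        simp
      rw [h7] at h6
      exact one_ne_zero h6
    have h4 : (Module.finrank F ((PP' F (Fin k) n).map (Lc F (Fin k) n)) : ℝ) =
        (Module.finrank F (Q F (Fin k) (Fin (n + 1))) : ℝ) -
          (Module.finrank F (D F (Fin k) n) : ℝ) := by
      rw [← h1]; push_cast; ring
    rw [h4, sub_div, div_self hQpos]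

end Pool.Agent.S02695
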