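import Pool.Statements.S04908
import Pool.Agent.K1H33.Rec

set_option autoImplicit false
open Pool Pool.MP_68b5a7_an

namespace Pool.Agent.S04908

/-- The negation of the preceding statement: For every partition of [0,1)² into finitely many half-open rectangles whose translates also partition it, the piecewise-translation map returns every point to within ε of itself, in Euclidean torus distance, at some time N ≥ 1. -/
theorem result :
    ¬ (∀ (m : ℕ) (a1 b1 a2 b2 v1 v2 : Fin m → ℝ) (φ : ℝ × ℝ → ℝ × ℝ),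
      Pairwise (fun r s : Fin m =>
        Disjoint (Set.Ico (a1 r) (b1 r) ×ˢ Set.Ico (a2 r) (b2 r))
          (Set.Ico (a1 s) (b1 s) ×ˢ Set.Ico (a2 s) (b2 s))) →
      (⋃ r : Fin m, Set.Ico (a1 r) (b1 r) ×ˢ Set.Ico (a2 r) (b2 r))
          = Set.Ico (0:ℝ) 1 ×ˢ Set.Ico (0:ℝ) 1 →
      Pairwise (fun r s : Fin m =>
        Disjoint
          (Set.Ico (a1 r + v1 r) (b1 r + v1 r) ×ˢ Set.Ico (a2 r + v2 r) (b2 r + v2 r))
          (Set.Ico (a1 s + v1 s) (b1 s + v1 s) ×ˢ Set.Ico (a2 s + v2 s) (b2 s + v2 s))) →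
      (⋃ r : Fin m,
          Set.Ico (a1 r + v1 r) (b1 r + v1 r) ×ˢ Set.Ico (a2 r + v2 r) (b2 r + v2 r))
          = Set.Ico (0:ℝ) 1 ×ˢ Set.Ico (0:ℝ) 1 →
      (∀ r : Fin m, ∀ x ∈ Set.Ico (a1 r) (b1 r) ×ˢ Set.Ico (a2 r) (b2 r),
          φ x = (x.1 + v1 r, x.2 + v2 r)) →
      ∀ x ∈ Set.Ico (0:ℝ) 1 ×ˢ Set.Ico (0:ℝ) 1, ∀ ε : ℝ, 0 < ε →
        ∃ N : ℕ, 1 ≤ N ∧ ∃ k1 k2 : ℤ,
          ((φ^[N] x).1 - x.1 + (k1 : ℝ)) ^ 2 + ((φ^[N] x).2 - x.2 + (k2 : ℝ)) ^ 2 ≤ ε ^ 2) := by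
  intro H
  have hirr : Irrational (Real.sqrt 2 / 4) := by
    have := irrational_sqrt_two.div_natCast (m := 4) (by norm_num)
    exact_mod_cast this
  have h2 : Real.sqrt 2 ^ 2 = 2 := Real.sq_sqrt (by norm_num)
  set α : ℝ := Real.sqrt 2 / 4 with hα
  have h0 : 0 < α := by rw [hα]; positivity
  have h1 : α < 1 / 2 := by rw [hα]; nlinarith [Real.sqrt_nonneg 2]
  let e : Fin 16 ≃ Fin 4 × Fin 4 := (finProdFinEquiv (m := 4) (n := 4)).symm
  have key := H 16 (fun r => K1H33.Rec.A α (e r).1) (fun r => K1H33.Rec.B α (e r).1)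
    (fun r => K1H33.Rec.C α (e r).2) (fun r => K1H33.Rec.D α (e r).2)
    (fun r => K1H33.Rec.VA α (e r).1) (fun r => K1H33.Rec.VC α (e r).2) (K1H33.Rec.φ α)
    (fun r s hrs => K1H33.Rec.prod_disjoint (K1H33.Rec.partA h0 h1) (K1H33.Rec.partC h0 h1) (e r)
      (e s) (fun h => hrs (e.injective h)))
    ((Set.iUnion_congr_of_surjective (g := fun i : Fin 4 × Fin 4 => K1H33.Rec.Rect
      (K1H33.Rec.A α i.1) (K1H33.Rec.B α i.1) (K1H33.Rec.C α i.2) (K1H33.Rec.D α i.2))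
      e e.surjective (fun r => rfl)).trans
      (K1H33.Rec.prod_cover (K1H33.Rec.partA h0 h1) (K1H33.Rec.partC h0 h1)))
    (fun r s hrs => K1H33.Rec.prod_disjoint (K1H33.Rec.partA' h0 h1) (K1H33.Rec.partC' h0 h1) (e r)
      (e s) (fun h => hrs (e.injective h)))
    ((Set.iUnion_congr_of_surjective (g := fun i : Fin 4 × Fin 4 => K1H33.Rec.Rect
      (K1H33.Rec.A α i.1 + K1H33.Rec.VA α i.1) (K1H33.Rec.B α i.1 + K1H33.Rec.VA α i.1)
      (K1H33.Rec.C α i.2 + K1H33.Rec.VC α i.2) (K1H33.Rec.D α i.2 + K1H33.Rec.VC α i.2))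
      e e.surjective (fun r => rfl)).trans
      (K1H33.Rec.prod_cover (K1H33.Rec.partA' h0 h1) (K1H33.Rec.partC' h0 h1)))
    (fun r x hx => Prod.ext (K1H33.Rec.T_eq h0 h1 _ _ hx.1) (K1H33.Rec.S_eq h0 h1 _ _ hx.2))
    (1 / 4, 1 / 4) ⟨⟨by norm_num, by norm_num⟩, ⟨by norm_num, by norm_num⟩⟩ (1 / 4) (by norm_num)
  obtain ⟨N, hN, k1, k2, hk⟩ := key
  obtain ⟨n, rfl⟩ : ∃ n, N = n + 1 := ⟨N - 1, by omega⟩
  obtain ⟨t, k, -, ht0, ht1, h⟩ := K1H33.Rec.orbit hirr h0 h1 n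
  rw [h] at hk
  simp only at hk
  have e1 : (1 / 4 + t - 1 / 4 + (k1 : ℝ)) = t + k1 := by ring
  have e2 : (3 / 4 - t - 1 / 4 + (k2 : ℝ)) = 1 / 2 - t + k2 := by ring
  rw [e1, e2] at hk
  -- each coordinate is at least as far from the integers as `t` and `1/2 - t` are from `0`
  have f : ∀ (s : ℝ) (j : ℤ), 0 < s → s < 1 / 2 → s ^ 2 ≤ (s + j) ^ 2 := by
    intro s j hs0 hs1
    rcases le_or_gt 0 j with hj | hj
    · have : (0 : ℝ) ≤ j := by exact_mod_cast hj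
      nlinarith
    · have hj' : j ≤ -1 := by omega
      have : (j : ℝ) ≤ -1 := by exact_mod_cast hj'
      nlinarith
  have f1 := f t k1 ht0 ht1
  have f2 := f (1 / 2 - t) k2 (by linarith) (by linarith)
  nlinarith [sq_nonneg (t - 1 / 4)]

end Pool.Agent.S04908
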