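import Pool.Statements.S07891
import Pool.Agent.K1H42.Dress.Ray

/-!
A ray of the Dressian `Dr(3,9)` whose subdivision is not a corank subdivision.

The vector `w` is the vector of tropical maximal minors of the matrix `(I | V)`, where the columns of
`V` are the six points `(x, y, 0)`, `x = 0, 1, 2`, `y = 0, 1`. Every vector inducing a coarser
subdivision satisfies the linear equations given by the octahedral faces of the hypersimplex, and
these equations have only the multiples of `w` plus linear forms as solutions. In the octahedral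
face with `S = {0}` on `1, 2, 3, 4` the two different values of the three sums differ by `1`, and in
the one with `S = {2}` on `0, 1, 4, 7` they differ by `3`. For a corank vector these differences are
integers of absolute value at most `2`.
-/

set_option autoImplicit false
open Pool Pool.MP_2e1090_co

namespace Pool.Agent.S07891

open Finset Pool.Agent.K1H42.Dress

theorem octa_val {v : Finset (Fin 9) → ℝ} {lam : ℝ} {c : Fin 9 → ℝ}
    (hv : ∀ B : Finset (Fin 9), B.card = 3 → v B = lam * w B + ∑ i ∈ B, c i)
    {s i j k l : Fin 9} (hnd : nd s i j k l = true) :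
    (v (insert i (insert k {s})) + v (insert j (insert l {s}))) -
      (v (insert i (insert j {s})) + v (insert k (insert l {s}))) =
    lam * (((T (cd i k s) : ℝ) + T (cd j l s)) - ((T (cd i j s) : ℝ) + T (cd k l s))) := by
  obtain ⟨his, hjs, hks, hls, hij, hik, hil, hjk, hjl, hkl⟩ := nd_iff hnd
  rw [hv _ (card3 hik his hks), hv _ (card3 hjl hjs hls), hv _ (card3 hij his hjs),
    hv _ (card3 hkl hks hls), w3 hik his hks, w3 hjl hjs hls, w3 hij his hjs, w3 hkl hks hls,
    sum3 c hik his hks, sum3 c hjl hjs hls, sum3 c hij his hjs, sum3 c hkl hks hls]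
  ring

theorem w_nontrivial : ¬ ∃ c : Fin 9 → ℝ, ∀ B : Finset (Fin 9), B.card = 3 →
    ∀ B' : Finset (Fin 9), B'.card = 3 → w B - ∑ i ∈ B, c i ≤ w B' - ∑ i ∈ B', c i := by
  rintro ⟨c, hc⟩
  have key : ∀ i j k l : Fin 9, i ≠ 0 → j ≠ 0 → k ≠ 0 → l ≠ 0 → i ≠ j → k ≠ l →
      w (insert i (insert j {0})) - (c i + c j + c 0) =
        w (insert k (insert l {0})) - (c k + c l + c 0) := by
    intro i j k l hi hj hk hl hij hkl
    have h1 := hc _ (card3 hij hi hj) _ (card3 hkl hk hl)
    have h2 := hc _ (card3 hkl hk hl) _ (card3 hij hi hj)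
    rw [sum3 c hij hi hj, sum3 c hkl hk hl] at h1 h2
    exact le_antisymm h1 h2
  have h1 := key 1 2 1 3 (by decide) (by decide) (by decide) (by decide) (by decide) (by decide)
  have h2 := key 3 4 2 4 (by decide) (by decide) (by decide) (by decide) (by decide) (by decide)
  rw [w3 (by decide) (by decide) (by decide), w3 (by decide) (by decide) (by decide)] at h1 h2
  have e1 : T (cd 1 2 0) = 0 := by decide +kernel
  have e2 : T (cd 3 4 0) = 0 := by decide +kernel
  have e3 : T (cd 1 3 0) = 0 := by decide +kernel
  have e4 : T (cd 2 4 0) = 1 := by decide +kernel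
  rw [e1, e3] at h1
  rw [e2, e4] at h2
  norm_num at h1 h2
  linarith

/-- the rank of a set increases at most by one when one element is exchanged -/
theorem rank_step (M : Matroid (Fin 9)) (A B : Finset (Fin 9)) (x : Fin 9) (h : A ⊆ insert x B) :
    (M.eRk (A : Set (Fin 9))).toNat ≤ (M.eRk (B : Set (Fin 9))).toNat + 1 := by
  have hfin : ∀ C : Finset (Fin 9), M.eRk (C : Set (Fin 9)) ≠ ⊤ := by
    intro C hC
    have h1 := M.eRk_le_encard (C : Set (Fin 9))
    rw [hC, Set.encard_coe_eq_coe_finsetCard] at h1
    exact absurd (top_le_iff.1 h1) (ENat.natCast_ne_top _)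
  have h1 : M.eRk (A : Set (Fin 9)) ≤ M.eRk (B : Set (Fin 9)) + 1 := by
    refine (M.eRk_mono (show (A : Set (Fin 9)) ⊆ insert x (B : Set (Fin 9)) by
      exact_mod_cast h)).trans (M.eRk_insert_le_add_one x _)
  obtain ⟨a, ha⟩ := ENat.ne_top_iff_exists.1 (hfin A)
  obtain ⟨b, hb⟩ := ENat.ne_top_iff_exists.1 (hfin B)
  rw [← ha, ← hb] at h1 ⊢
  simp only [ENat.toNat_natCast]
  exact_mod_cast h1

/-- Some Dressian Dr(d,n) has a tropical Plücker vector inducing a coarsest nontrivial matroid subdivision (a ray) that differs from the subdivision induced by the corank vector of every rank-d matroid on n elements. -/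
theorem result :
    ∃ d n : ℕ, ∃ w : Finset (Fin n) → ℝ,
      (∀ (S : Finset (Fin n)) (i j k l : Fin n), S.card + 2 = d →
        i ∉ S → j ∉ S → k ∉ S → l ∉ S →
        i ≠ j → i ≠ k → i ≠ l → j ≠ k → j ≠ l → k ≠ l →
        ((w (insert i (insert j S)) + w (insert k (insert l S))
            = w (insert i (insert k S)) + w (insert j (insert l S)) ∧
          w (insert i (insert j S)) + w (insert k (insert l S))
            ≤ w (insert i (insert l S)) + w (insert j (insert k S))) ∨
         (w (insert i (insert j S)) + w (insert k (insert l S))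
            = w (insert i (insert l S)) + w (insert j (insert k S)) ∧
          w (insert i (insert j S)) + w (insert k (insert l S))
            ≤ w (insert i (insert k S)) + w (insert j (insert l S))) ∨
         (w (insert i (insert k S)) + w (insert j (insert l S))
            = w (insert i (insert l S)) + w (insert j (insert k S)) ∧
          w (insert i (insert k S)) + w (insert j (insert l S))
            ≤ w (insert i (insert j S)) + w (insert k (insert l S))))) ∧
      (¬ ∃ c : Fin n → ℝ, ∀ B : Finset (Fin n), B.card = d →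
          ∀ B' : Finset (Fin n), B'.card = d →
            w B - ∑ i ∈ B, c i ≤ w B' - ∑ i ∈ B', c i) ∧
      (∀ v : Finset (Fin n) → ℝ,
        (∀ (S : Finset (Fin n)) (i j k l : Fin n), S.card + 2 = d →
          i ∉ S → j ∉ S → k ∉ S → l ∉ S →
          i ≠ j → i ≠ k → i ≠ l → j ≠ k → j ≠ l → k ≠ l →
          ((v (insert i (insert j S)) + v (insert k (insert l S))
              = v (insert i (insert k S)) + v (insert j (insert l S)) ∧
            v (insert i (insert j S)) + v (insert k (insert l S))
              ≤ v (insert i (insert l S)) + v (insert j (insert k S))) ∨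
           (v (insert i (insert j S)) + v (insert k (insert l S))
              = v (insert i (insert l S)) + v (insert j (insert k S)) ∧
            v (insert i (insert j S)) + v (insert k (insert l S))
              ≤ v (insert i (insert k S)) + v (insert j (insert l S))) ∨
           (v (insert i (insert k S)) + v (insert j (insert l S))
              = v (insert i (insert l S)) + v (insert j (insert k S)) ∧
            v (insert i (insert k S)) + v (insert j (insert l S))
              ≤ v (insert i (insert j S)) + v (insert k (insert l S))))) →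
        (∀ c : Fin n → ℝ, ∃ c' : Fin n → ℝ,
          {B : Finset (Fin n) | B.card = d ∧ ∀ B' : Finset (Fin n), B'.card = d →
              w B - ∑ i ∈ B, c i ≤ w B' - ∑ i ∈ B', c i} ⊆
          {B : Finset (Fin n) | B.card = d ∧ ∀ B' : Finset (Fin n), B'.card = d →
              v B - ∑ i ∈ B, c' i ≤ v B' - ∑ i ∈ B', c' i}) →
        (∃ c : Fin n → ℝ, ∀ B : Finset (Fin n), B.card = d →
          ∀ B' : Finset (Fin n), B'.card = d →
            v B - ∑ i ∈ B, c i ≤ v B' - ∑ i ∈ B', c i) ∨
        ((∀ c : Fin n → ℝ, ∃ c' : Fin n → ℝ,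
          {B : Finset (Fin n) | B.card = d ∧ ∀ B' : Finset (Fin n), B'.card = d →
              w B - ∑ i ∈ B, c i ≤ w B' - ∑ i ∈ B', c i} =
          {B : Finset (Fin n) | B.card = d ∧ ∀ B' : Finset (Fin n), B'.card = d →
              v B - ∑ i ∈ B, c' i ≤ v B' - ∑ i ∈ B', c' i}) ∧
         (∀ c : Fin n → ℝ, ∃ c' : Fin n → ℝ,
          {B : Finset (Fin n) | B.card = d ∧ ∀ B' : Finset (Fin n), B'.card = d →
              v B - ∑ i ∈ B, c i ≤ v B' - ∑ i ∈ B', c i} =
          {B : Finset (Fin n) | B.card = d ∧ ∀ B' : Finset (Fin n), B'.card = d →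
              w B - ∑ i ∈ B, c' i ≤ w B' - ∑ i ∈ B', c' i}))) ∧
      (¬ ∃ M : Matroid (Fin n), M.E = Set.univ ∧ M.eRank = (d : ℕ∞) ∧
        (∀ c : Fin n → ℝ, ∃ c' : Fin n → ℝ,
          {B : Finset (Fin n) | B.card = d ∧ ∀ B' : Finset (Fin n), B'.card = d →
              w B - ∑ i ∈ B, c i ≤ w B' - ∑ i ∈ B', c i} =
          {B : Finset (Fin n) | B.card = d ∧ ∀ B' : Finset (Fin n), B'.card = d →
              ((d : ℝ) - ((M.eRk (B : Set (Fin n))).toNat : ℝ)) - ∑ i ∈ B, c' i ≤
              ((d : ℝ) - ((M.eRk (B' : Set (Fin n))).toNat : ℝ)) - ∑ i ∈ B', c' i}) ∧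
        (∀ c : Fin n → ℝ, ∃ c' : Fin n → ℝ,
          {B : Finset (Fin n) | B.card = d ∧ ∀ B' : Finset (Fin n), B'.card = d →
              ((d : ℝ) - ((M.eRk (B : Set (Fin n))).toNat : ℝ)) - ∑ i ∈ B, c i ≤
              ((d : ℝ) - ((M.eRk (B' : Set (Fin n))).toNat : ℝ)) - ∑ i ∈ B', c i} =
          {B : Finset (Fin n) | B.card = d ∧ ∀ B' : Finset (Fin n), B'.card = d →
              w B - ∑ i ∈ B, c' i ≤ w B' - ∑ i ∈ B', c' i})) := by
  refine ⟨3, 9, w, ?_, w_nontrivial, ?_, ?_⟩
  · intro S i j k l hS hi hj hk hl hij hik hil hjk hjl hkl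
    obtain ⟨s, rfl⟩ := Finset.card_eq_one.1 (show S.card = 1 by omega)
    rw [Finset.mem_singleton] at hi hj hk hl
    have h1 := pluckerB s i j k l
    rw [nd_of hi hj hk hl hij hik hil hjk hjl hkl] at h1
    simp only [rel, Bool.not_true, Bool.false_or, Bool.or_eq_true, Bool.and_eq_true, beq_iff_eq,
      Nat.ble_eq] at h1
    rw [w3 hij hi hj, w3 hkl hk hl, w3 hik hi hk, w3 hjl hj hl, w3 hil hi hl, w3 hjk hj hk]
    rcases h1 with (h1 | h1) | h1
    · left
      exact_mod_cast h1
    · right; left
      exact_mod_cast h1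
    · right; right
      exact_mod_cast h1
  · intro v hv href
    have hrep := octa_rep (octa_of_refine v href)
    rcases lt_trichotomy (lam v) 0 with hneg | hzero | hpos
    · exfalso
      have h1 := hv {0} 1 2 3 4 (by simp) (by decide) (by decide) (by decide) (by decide)
        (by decide) (by decide) (by decide) (by decide) (by decide) (by decide)
      have h2 := octa_val hrep (show nd 0 1 2 3 4 = true by decide)
      have h3 := octa_val hrep (show nd 0 1 2 4 3 = true by decide)
      have e1 : T (cd 1 2 0) = 0 := by decide +kernel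
      have e2 : T (cd 3 4 0) = 0 := by decide +kernel
      have e3 : T (cd 1 3 0) = 0 := by decide +kernel
      have e4 : T (cd 2 4 0) = 1 := by decide +kernel
      have e5 : T (cd 1 4 0) = 0 := by decide +kernel
      have e6 : T (cd 2 3 0) = 0 := by decide +kernel
      have e7 : T (cd 4 3 0) = 0 := by decide +kernel
      rw [e1, e2, e3, e4] at h2
      rw [e1, e5, e6, e7] at h3
      rw [Finset.insert_comm 4 3 {0}] at h3
      norm_num at h2 h3
      rcases h1 with h1 | h1 | h1
      · obtain ⟨h4, h5⟩ := h1
        linarith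
      · obtain ⟨h4, h5⟩ := h1
        linarith
      · obtain ⟨h4, h5⟩ := h1
        linarith
    · left
      refine ⟨lf v, fun B hB B' hB' => ?_⟩
      rw [hrep B hB, hrep B' hB', hzero]
      linarith
    · right
      have hform : ∀ c : Fin 9 → ℝ, ∀ B : Finset (Fin 9), B.card = 3 →
          v B - ∑ i ∈ B, (lam v * c i + lf v i) = lam v * (w B - ∑ i ∈ B, c i) := by
        intro c B hB
        rw [hrep B hB, Finset.sum_add_distrib, ← Finset.mul_sum]
        ring
      have hcell : ∀ c : Fin 9 → ℝ, cell 3 w c = cell 3 v (fun i => lam v * c i + lf v i) := by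
        intro c
        ext B
        constructor
        · rintro ⟨hB, h⟩
          refine ⟨hB, fun B' hB' => ?_⟩
          rw [hform c B hB, hform c B' hB']
          exact mul_le_mul_of_nonneg_left (h B' hB') hpos.le
        · rintro ⟨hB, h⟩
          refine ⟨hB, fun B' hB' => ?_⟩
          have := h B' hB'
          rw [hform c B hB, hform c B' hB'] at this
          exact le_of_mul_le_mul_left this hpos
      refine ⟨fun c => ⟨_, hcell c⟩, fun c => ⟨fun i => (lam v)⁻¹ * (c i - lf v i), ?_⟩⟩
      have h1 := hcell (fun i => (lam v)⁻¹ * (c i - lf v i))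
      have h2 : (fun i => lam v * ((lam v)⁻¹ * (c i - lf v i)) + lf v i) = c := by
        funext i
        rw [mul_inv_cancel_left₀ hpos.ne']
        ring
      rw [h2] at h1
      exact h1.symm
  · rintro ⟨M, -, -, hA, hB⟩
    obtain ⟨rho, hrho⟩ : ∃ rho : Finset (Fin 9) → ℝ,
        rho = fun B : Finset (Fin 9) => ((3 : ℕ) : ℝ) - ((M.eRk (B : Set (Fin 9))).toNat : ℝ) :=
      ⟨_, rfl⟩
    have hrep := octa_rep (v := rho) (octa_of_refine rho (by
      rw [hrho]
      exact fun c => (hA c).imp fun c' h => h.subset))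
    have hrB : ∀ B : Finset (Fin 9), rho B = 3 - ((M.eRk (B : Set (Fin 9))).toNat : ℝ) := by
      intro B
      rw [hrho]
      norm_num
    have h1 := octa_val hrep (show nd 0 1 3 2 4 = true by decide)
    have h2 := octa_val hrep (show nd 2 0 1 4 7 = true by decide)
    have e1 : T (cd 1 2 0) = 0 := by decide +kernel
    have e2 : T (cd 3 4 0) = 0 := by decide +kernel
    have e3 : T (cd 1 3 0) = 0 := by decide +kernel
    have e4 : T (cd 2 4 0) = 1 := by decide +kernel
    have f1 : T (cd 0 1 2) = 0 := by decide +kernel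
    have f2 : T (cd 4 7 2) = 0 := by decide +kernel
    have f3 : T (cd 0 4 2) = 1 := by decide +kernel
    have f4 : T (cd 1 7 2) = 2 := by decide +kernel
    rw [e1, e2, e3, e4, hrB, hrB, hrB, hrB] at h1
    rw [f1, f2, f3, f4, hrB, hrB, hrB, hrB] at h2
    have r1 := rank_step M (insert 0 (insert 4 {2})) (insert 0 (insert 1 {2})) 4 (by decide)
    have r2 := rank_step M (insert 0 (insert 1 {2})) (insert 0 (insert 4 {2})) 1 (by decide)
    have r3 := rank_step M (insert 1 (insert 7 {2})) (insert 4 (insert 7 {2})) 1 (by decide)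
    have r4 := rank_step M (insert 4 (insert 7 {2})) (insert 1 (insert 7 {2})) 4 (by decide)
    have hlam : lam rho = 0 := by
      generalize lam rho = L at h1 h2 ⊢
      generalize (M.eRk ((insert 0 (insert 4 {2}) : Finset (Fin 9)) : Set (Fin 9))).toNat = a1
        at h2 r1 r2
      generalize (M.eRk ((insert 0 (insert 1 {2}) : Finset (Fin 9)) : Set (Fin 9))).toNat = a2
        at h2 r1 r2
      generalize (M.eRk ((insert 1 (insert 7 {2}) : Finset (Fin 9)) : Set (Fin 9))).toNat = a3
        at h2 r3 r4
      generalize (M.eRk ((insert 4 (insert 7 {2}) : Finset (Fin 9)) : Set (Fin 9))).toNat = a4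
        at h2 r3 r4
      generalize (M.eRk ((insert 1 (insert 2 {0}) : Finset (Fin 9)) : Set (Fin 9))).toNat = b1
        at h1
      generalize (M.eRk ((insert 3 (insert 4 {0}) : Finset (Fin 9)) : Set (Fin 9))).toNat = b2
        at h1
      generalize (M.eRk ((insert 1 (insert 3 {0}) : Finset (Fin 9)) : Set (Fin 9))).toNat = b3
        at h1
      generalize (M.eRk ((insert 2 (insert 4 {0}) : Finset (Fin 9)) : Set (Fin 9))).toNat = b4
        at h1
      norm_num at h1 h2
      have g1 : L = (b1 : ℝ) + b2 - b3 - b4 := by linarith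
      have g2 : (3 : ℝ) * ((b1 : ℝ) + b2 - b3 - b4) = (a2 : ℝ) + a4 - a1 - a3 := by
        rw [← g1]
        linarith
      have g3 : (3 : ℤ) * ((b1 : ℤ) + b2 - b3 - b4) = (a2 : ℤ) + a4 - a1 - a3 := by
        exact_mod_cast g2
      have g4 : (b1 : ℤ) + b2 - b3 - b4 = 0 := by omega
      have g5 : (b1 : ℝ) + b2 - b3 - b4 = 0 := by exact_mod_cast g4
      exact g1.trans g5
    have hB' : ∀ c : Fin 9 → ℝ, ∃ c' : Fin 9 → ℝ, cell 3 rho c = cell 3 w c' := by
      rw [hrho]
      exact hB
    obtain ⟨c', hc'⟩ := hB' (lf rho)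
    apply w_nontrivial
    have hmem : ∀ B : Finset (Fin 9), B.card = 3 → B ∈ cell 3 w c' := by
      intro B hBc
      have hmem' : B ∈ cell 3 rho (lf rho) := by
        refine ⟨hBc, fun B' hB' => ?_⟩
        rw [hrep B hBc, hrep B' hB', hlam]
        linarith
      exact hc'.subset hmem'
    exact ⟨c', fun B hBc B' hB' => (hmem B hBc).2 B' hB'⟩

end Pool.Agent.S07891
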