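import Pool.Statements.S07942
import Pool.Agent.Results.MP_30ed83_co.LinearForests

set_option autoImplicit false
open Pool Pool.MP_30ed83_co

namespace Pool.Agent.S07942

/-- The claw with centre `0` on the vertex set `Fin 4`. -/
def claw : SimpleGraph (Fin 4) where
  Adj i j := i ≠ j ∧ (i = 0 ∨ j = 0)
  symm := ⟨fun i j h => ⟨h.1.symm, h.2.symm⟩⟩
  loopless := ⟨fun i h => h.1 rfl⟩

theorem claw_chi : claw.chromaticNumber = 2 := by
  apply le_antisymm
  · refine SimpleGraph.chromaticNumber_le_iff_colorable.2 ?_
    refine ⟨SimpleGraph.Coloring.mk (fun i => if i = 0 then (0 : Fin 2) else 1) ?_⟩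
    intro a b hab
    obtain ⟨h1, h2⟩ := hab
    rcases h2 with h2 | h2
    · subst h2
      have : b ≠ 0 := fun h => h1 h.symm
      simp [this]
    · subst h2
      simp [h1]
  · by_contra hcon
    push Not at hcon
    have h1 : claw.chromaticNumber ≤ 1 := by
      have h3 : claw.chromaticNumber < (1 : ℕ∞) + 1 := by
        calc claw.chromaticNumber < 2 := hcon
          _ = 1 + 1 := by norm_num
      exact Order.le_of_lt_add_one h3
    obtain ⟨c⟩ := SimpleGraph.chromaticNumber_le_iff_colorable.1 h1
    have h2 : claw.Adj 0 1 := ⟨by decide, Or.inl rfl⟩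
    exact c.valid h2 (Subsingleton.elim _ _)

theorem claw_not_path (k : ℕ) : ¬ claw.IsIndContained (SimpleGraph.pathGraph k) := by
  rintro ⟨e⟩
  have h : ∀ i : Fin 4, i ≠ 0 → (e 0).val + 1 = (e i).val ∨ (e i).val + 1 = (e 0).val := by
    intro i hi
    have h1 : (SimpleGraph.pathGraph k).Adj (e 0) (e i) :=
      e.map_rel_iff.2 ⟨hi.symm, Or.inl rfl⟩
    exact SimpleGraph.pathGraph_adj.1 h1
  have hne : ∀ i j : Fin 4, i ≠ j → (e i).val ≠ (e j).val := by
    intro i j hij h1
    exact hij (e.injective (Fin.ext h1))
  have h1 := h 1 (by decide)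
  have h2 := h 2 (by decide)
  have h3 := h 3 (by decide)
  have h12 := hne 1 2 (by decide)
  have h13 := hne 1 3 (by decide)
  have h23 := hne 2 3 (by decide)
  omega

/-- The negation of the preceding statement: For every finite graph F with an edge and every r, some finite graph G has chromatic number above r and clique number equal to F's, and every induced subgraph of G with no induced copy of F has chromatic number at most that of F. -/
theorem result :
    ¬ (∀ (n : ℕ) (F : SimpleGraph (Fin n)), F ≠ ⊥ →
      ∀ r : ℕ, ∃ (m : ℕ) (G : SimpleGraph (Fin m)),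
        (r : ℕ∞) < G.chromaticNumber ∧
        G.cliqueNum = F.cliqueNum ∧
        ∀ s : Set (Fin m), ¬ F.IsIndContained (G.induce s) →
          (G.induce s).chromaticNumber ≤ F.chromaticNumber) := by
  intro h
  have hne : claw ≠ ⊥ := by
    intro hbot
    have h2 : claw.Adj 0 1 := ⟨by decide, Or.inl rfl⟩
    rw [hbot] at h2
    exact h2
  obtain ⟨k, hk⟩ := (Pool.Agent.Results.MP_30ed83_co.LinearForests.result 4 claw claw_chi).1
    (h 4 claw hne)
  exact claw_not_path k hk

end Pool.Agent.S07942
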