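import Pool.Statements.S09154
import Pool.Agent.K1H64.ST.Fin2
import Pool.Agent.K1H37.ST.Pot
import Pool.Agent.K1H37.ST.NF
import Pool.Agent.K1H37.ST.Tup
import Pool.Agent.K1H37.ST.Match
import Pool.Agent.K1H37.ST.Prob
import Pool.Agent.K1H37.ST.Joint
import Pool.Agent.K1H44.ST.Tail
import Pool.Agent.K1H85.ST.Line
import Pool.Agent.K1H85.ST.Rank
import Pool.Agent.K1H85.ST.Ze
import Pool.Agent.K1H9.ST.Col
import Pool.Agent.K1H9.ST.Str
import Pool.Agent.K1H90.ST.Eta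
import Pool.Agent.K1H90.ST.Thr
import Pool.Agent.K1H25.ST.Sys
import Pool.Agent.K1H35.ST.Code
import Pool.Agent.K1H2.ST.Strf4

set_option autoImplicit false
open Pool Pool.MP_621e06_co

namespace Pool.Agent.S09154

/-- The negation of the preceding statement: There are sets A_n of half the points of the (n+1)-cube such that, for any C, for all large n every bijection from the n-cube onto A_n has average edge stretch (mean Hamming distance of images of adjacent points) above C. -/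
theorem result :
    ¬ (∃ A : ∀ n : ℕ, Finset (Fin (n + 1) → Bool),
      (∀ n, (A n).card = 2 ^ n) ∧
      ∀ C : ℝ, ∃ N : ℕ, ∀ n ≥ N,
        ∀ f : (Fin n → Bool) → (Fin (n + 1) → Bool),
          Function.Injective f → Set.range f = (↑(A n) : Set (Fin (n + 1) → Bool)) →
          C < (∑ x : Fin n → Bool, ∑ i : Fin n,
                (hammingDist (f x) (f (Function.update x i (!x i))) : ℝ)) /
              ((n : ℝ) * 2 ^ n)) := by
  have hTAIL := Pool.Agent.K1H44.ST.t_TAIL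
  have hNF := Pool.Agent.K1H37.ST.t_NF
  have hTUP := Pool.Agent.K1H37.ST.t_TUP
  have hMEAN := Pool.Agent.K1H37.ST.t_MEAN
  have hSTR2 := Pool.Agent.K1H9.ST.t_STR2 Pool.Agent.K1H85.ST.t_LINE Pool.Agent.K1H85.ST.t_RANK hTAIL
  have hSTR := Pool.Agent.K1H9.ST.t_STR Pool.Agent.K1H85.ST.t_LINE Pool.Agent.K1H85.ST.t_RANK hNF hTAIL
  have hSYS := Pool.Agent.K1H25.ST.t_SYS Pool.Agent.K1H37.ST.t_POT hTAIL hSTR
    (Pool.Agent.K1H85.ST.t_ZE hNF hSTR2 hTAIL) (Pool.Agent.K1H90.ST.t_ETA hTAIL)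
    Pool.Agent.K1H90.ST.t_THR Pool.Agent.K1H90.ST.t_SMALL Pool.Agent.K1H9.ST.t_COL1
    Pool.Agent.K1H9.ST.t_COL2
  have hVAR := Pool.Agent.K1H64.ST.t_VAR Pool.Agent.K1H37.ST.t_JOINT hMEAN
    Pool.Agent.K1H37.ST.t_INDEP hTUP
  have hFIN := Pool.Agent.K1H64.ST.t_FIN hVAR hMEAN
    (Pool.Agent.K1H2.ST.t_STRF Pool.Agent.K1H37.ST.t_FST) Pool.Agent.K1H37.ST.t_MATCH
    (Pool.Agent.K1H35.ST.t_CODE hTUP)
  exact Pool.Agent.K1H64.ST.final hSYS hFIN

end Pool.Agent.S09154
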