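import Pool.Statements.S09946
import Mathlib
import Pool.Agent.K1H44.CycFam

set_option autoImplicit false
open Pool Pool.MP_8888ff_co

namespace Pool.Agent.S09946

open SimpleGraph Pool.Agent.K1H44.CycFam

/-- The negation of the preceding statement: For every graph family whose members all contain a cycle and one is bipartite, some c>0 ensures every graph with min degree δ≥1 and max degree Δ has a spanning F-free subgraph of min degree at least c·ex(K_Δ,F)·δ/Δ².

The counterexample is the family of all finite graphs of minimum degree at least two which contain a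
cycle that is very short compared with the number of vertices (a cycle of length `ℓ` and at least
`N ℓ` vertices, where `N` grows fast). A graph with `Δ` vertices can avoid this family and still have
an unbounded average degree, as it only has to avoid the cycles of the lengths `ℓ` with `N ℓ ≤ Δ`. But
a union of sufficiently many disjoint complete graphs with `Δ + 1` vertices has no spanning subgraph
of minimum degree two avoiding the family, as this subgraph would itself be a member. -/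
theorem result :
    ¬ (∀ F : Set (Σ k : ℕ, SimpleGraph (Fin k)),
      (∀ p ∈ F, ¬ p.2.IsAcyclic) →
      (∃ p ∈ F, p.2.Colorable 2) →
      ∃ c : ℝ, 0 < c ∧
        ∀ δ Δ : ℕ, 1 ≤ δ → δ ≤ Δ →
          ∀ n : ℕ, ∀ G : SimpleGraph (Fin n),
            (∀ v, δ ≤ (G.neighborSet v).ncard) →
            (∃ v, (G.neighborSet v).ncard = δ) →
            (∀ v, (G.neighborSet v).ncard ≤ Δ) →
            (∃ v, (G.neighborSet v).ncard = Δ) →
            ∀ T : SimpleGraph (Fin Δ),
              (∀ p ∈ F, ¬ p.2.IsContained T) →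
              ∃ H : SimpleGraph (Fin n), H ≤ G ∧
                (∀ p ∈ F, ¬ p.2.IsContained H) ∧
                ∀ v, c * (T.edgeSet.ncard : ℝ) * (δ : ℝ) / (Δ : ℝ) ^ 2
                  ≤ ((H.neighborSet v).ncard : ℝ)) := by
  classical
  intro hall
  choose m hm1 T hT1 hT2 using exists_dense
  -- the function `N`
  obtain ⟨N, hN⟩ : ∃ N : ℕ → ℕ, N = fun ℓ => 1 + ∑ K ∈ Finset.range ℓ, m K := ⟨_, rfl⟩
  have hNlt : ∀ K ℓ, K < ℓ → m K < N ℓ := by
    intro K ℓ h
    rw [hN]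
    have : m K ≤ ∑ K ∈ Finset.range ℓ, m K :=
      Finset.single_le_sum (f := m) (fun _ _ => Nat.zero_le _) (Finset.mem_range.mpr h)
    show m K < 1 + ∑ K ∈ Finset.range ℓ, m K
    omega
  have hNmono : ∀ a b, a ≤ b → N a ≤ N b := by
    intro a b h
    rw [hN]
    have : ∑ K ∈ Finset.range a, m K ≤ ∑ K ∈ Finset.range b, m K :=
      Finset.sum_le_sum_of_subset (Finset.range_mono h)
    show 1 + ∑ K ∈ Finset.range a, m K ≤ 1 + ∑ K ∈ Finset.range b, m K
    omega
  have hN1 : ∀ ℓ, 1 ≤ N ℓ := by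
    intro ℓ
    rw [hN]
    show 1 ≤ 1 + ∑ K ∈ Finset.range ℓ, m K
    omega
  -- the family
  obtain ⟨F, hF⟩ : ∃ F : Set (Σ k : ℕ, SimpleGraph (Fin k)), F =
      {p | (∀ v, 2 ≤ (p.2.neighborSet v).ncard) ∧
        ∃ ℓ, 3 ≤ ℓ ∧ N ℓ ≤ p.1 ∧ (cycleGraph ℓ).IsContained p.2} := ⟨_, rfl⟩
  have hF1 : ∀ p ∈ F, ¬ p.2.IsAcyclic := by
    intro p hp hac
    rw [hF] at hp
    obtain ⟨-, ℓ, hℓ, -, hc⟩ := hp
    exact isAcyclic_iff_free_cycleGraph.mp hac ℓ hℓ hc
  have hF2 : ∃ p ∈ F, p.2.Colorable 2 := by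
    refine ⟨⟨N 4 + 4, parity (N 4 + 4)⟩, ?_, parity_colorable _⟩
    rw [hF]
    exact ⟨fun v => parity_degree (k := N 4 + 4) (by omega) v, 4, by norm_num, Nat.le_add_right _ _,
      parity_cycle (k := N 4 + 4) (by omega)⟩
  obtain ⟨c, hc, h⟩ := hall F hF1 hF2
  -- the parameters
  obtain ⟨K, hK⟩ := exists_nat_gt (2 / c)
  have hK' : 2 < c * K := by
    rw [div_lt_iff₀ hc] at hK
    linarith
  obtain ⟨D, hD⟩ : ∃ D, D = m K := ⟨_, rfl⟩
  have hD1 : 1 ≤ D := by rw [hD]; exact hm1 K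
  obtain ⟨M, hM⟩ : ∃ M, M = N (D + 1) := ⟨_, rfl⟩
  have hM1 : 1 ≤ M := by rw [hM]; exact hN1 _
  have hdeg := blocks_degree M D
  have v0 : Fin (M * (D + 1)) := ⟨0, by positivity⟩
  have hfree : ∀ p ∈ F, ¬ p.2.IsContained (T K) := by
    intro p hp hcon
    rw [hF] at hp
    obtain ⟨-, ℓ, hℓ, hNp, hcy⟩ := hp
    have h1 : K < ℓ := hT1 K ℓ hℓ (hcy.trans hcon)
    have h2 : p.1 ≤ m K := by
      obtain ⟨f⟩ := hcon
      have := Fintype.card_le_of_injective f f.injective
      simpa using this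
    have h3 := hNlt K ℓ h1
    omega
  subst hD
  obtain ⟨H, hHG, hHF, hHd⟩ := h (m K) (m K) hD1 le_rfl _ (blocks M (m K))
    (fun v => (hdeg v).ge) ⟨v0, hdeg v0⟩ (fun v => (hdeg v).le) ⟨v0, hdeg v0⟩ (T K) hfree
  have hD0 : (0 : ℝ) < m K := by exact_mod_cast hD1
  have hdegH : ∀ v, 2 ≤ (H.neighborSet v).ncard := by
    intro v
    have h1 := hHd v
    have h2 : (K : ℝ) * m K ≤ 2 * ((T K).edgeSet.ncard : ℝ) := by exact_mod_cast hT2 K
    have h3 : 1 < c * ((T K).edgeSet.ncard : ℝ) * (m K : ℝ) / (m K : ℝ) ^ 2 := by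
      rw [lt_div_iff₀ (by positivity)]
      have h4 : c * (K * m K) ≤ c * (2 * ((T K).edgeSet.ncard : ℝ)) :=
        mul_le_mul_of_nonneg_left h2 hc.le
      have h5 : 2 * (m K : ℝ) < c * K * m K := mul_lt_mul_of_pos_right hK' hD0
      nlinarith
    have h4 : (1 : ℝ) < ((H.neighborSet v).ncard : ℝ) := lt_of_lt_of_le h3 h1
    exact_mod_cast h4
  have : Nonempty (Fin (M * (m K + 1))) := ⟨v0⟩
  have hcyc := exists_cycle H hdegH
  rw [isAcyclic_iff_free_cycleGraph] at hcyc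
  push Not at hcyc
  obtain ⟨ℓ, hℓ, hcℓ⟩ := hcyc
  have hcℓ' : (cycleGraph ℓ).IsContained H := hcℓ
  obtain ⟨v, w, hw, hlen⟩ := (cycleGraph_isContained_iff (by omega)).mp hcℓ'
  have hle := cycle_length hHG w hw
  rw [hlen] at hle
  apply hHF ⟨_, H⟩ _ (IsContained.refl H)
  rw [hF]
  refine ⟨hdegH, ℓ, hℓ, ?_, hcℓ'⟩
  show N ℓ ≤ M * (m K + 1)
  have h1 := hNmono ℓ (m K + 1) hle
  rw [← hM] at h1
  calc N ℓ ≤ M := h1
    _ ≤ M * (m K + 1) := Nat.le_mul_of_pos_right _ (by omega)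

end Pool.Agent.S09946
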