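import Pool.Statements.S13341
import Pool.Agent.K1H56.Nag.Fin

set_option autoImplicit false
open Bundle
open scoped Manifold ContDiff
open Pool Pool.MP_6d5819_gt

namespace Pool.Agent.S13341

/-- For every compact simply connected Riemannian manifold whose points all have isometric symmetries with differential minus identity, if some antipodal finite set is larger than the total real Betti number, then some integral homology group has an element of order 2. -/
theorem result :
  ∀ (d : ℕ) (M : Type) [EMetricSpace M]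
    [ChartedSpace (EuclideanSpace ℝ (Fin d)) M]
    [IsManifold (𝓡 d) ∞ M]
    [RiemannianBundle (fun x : M ↦ TangentSpace (𝓡 d) x)]
    [IsContMDiffRiemannianBundle (𝓡 d) ∞ (EuclideanSpace ℝ (Fin d))
      (fun x : M ↦ TangentSpace (𝓡 d) x)]
    [IsRiemannianManifold (𝓡 d) M]
    [CompactSpace M] [SimplyConnectedSpace M]
    (s : M → M → M),
    (∀ x : M, Isometry (s x) ∧ s x x = x ∧
      mfderiv (𝓡 d) (𝓡 d) (s x) x = -ContinuousLinearMap.id ℝ (EuclideanSpace ℝ (Fin d))) →
    (∃ A : Finset M, (∀ x ∈ A, ∀ y ∈ A, s x y = y) ∧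
      (∑ i ∈ Finset.range (d + 1),
        Module.finrank ℝ
          ((((AlgebraicTopology.singularHomologyFunctor (ModuleCat.{0} ℝ) i).obj
            (ModuleCat.of ℝ ℝ)).obj (TopCat.of M) : ModuleCat.{0} ℝ) : Type)) < A.card) →
    ∃ i : ℕ, ∃ g : ((((AlgebraicTopology.singularHomologyFunctor (ModuleCat.{0} ℤ) i).obj
            (ModuleCat.of ℤ ℤ)).obj (TopCat.of M) : ModuleCat.{0} ℤ) : Type),
      addOrderOf g = 2 := by
  intro d M iE iC iM iR iS iRM iK iSC s hs hA
  obtain ⟨A, hA, hlt⟩ := hA
  by_contra hcon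
  have hT := Pool.Agent.K1H56.Nag.no_tors M hcon
  have hconn : PathConnectedSpace M := inferInstance
  have hpre : PreconnectedSpace M := inferInstance
  have hne : Nonempty M := inferInstance
  letI iMet : MetricSpace M :=
    @EMetricSpace.toMetricSpace M iE (Pool.Agent.K1H56.Nag.edist_ne_top' (M := M))
  have key := Pool.Agent.K1H56.Nag.core (E := EuclideanSpace ℝ (Fin d)) (M := M)
    (d := d) finrank_euclideanSpace_fin s hs A hA hT
  have e : ∀ i, Module.finrank ℝ
          ((((AlgebraicTopology.singularHomologyFunctor (ModuleCat.{0} ℝ) i).obj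
            (ModuleCat.of ℝ ℝ)).obj (TopCat.of M) : ModuleCat.{0} ℝ) : Type) =
        Module.finrank ℝ (Pool.Agent.TH592.Nag.Hm ℝ M i) := by
    intro i
    obtain ⟨e⟩ := Pool.Agent.TH592.Nag.bridge ℝ M i
    exact e.finrank_eq
  rw [Finset.sum_congr rfl fun i _ => e i] at hlt
  exact absurd key (not_le.mpr hlt)

end Pool.Agent.S13341
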