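import Pool.Statements.S14090
import Pool.Agent.Helper479.Bond.VK
import Pool.Agent.K1H58.K5Space

set_option autoImplicit false
open Pool Pool.MP_de0764_gt

namespace Pool.Agent.S14090

open Set Topology Metric

/-- If a closed continuous surjection has connected fibres, then the preimage of a connected closed
set is connected. -/
lemma preimage_connected {X Y : Type} [TopologicalSpace X] [TopologicalSpace Y] (f : X → Y)
    (hf : Continuous f) (hc : IsClosedMap f) (hs : Function.Surjective f)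
    (hm : ∀ y, IsConnected (f ⁻¹' {y})) (C : Set Y) (hC : IsClosed C) (hCc : IsConnected C) :
    IsConnected (f ⁻¹' C) := by
  refine ⟨?_, ?_⟩
  · obtain ⟨y, hy⟩ := hCc.nonempty
    obtain ⟨x, rfl⟩ := hs y
    exact ⟨x, hy⟩
  · rw [isPreconnected_closed_iff]
    intro A B hA hB hsub hA' hB'
    have h1 : C ⊆ f '' (f ⁻¹' C ∩ A) ∪ f '' (f ⁻¹' C ∩ B) := by
      intro y hy
      obtain ⟨x, rfl⟩ := hs y
      rcases hsub (show x ∈ f ⁻¹' C from hy) with h | h
      · exact Or.inl ⟨x, ⟨hy, h⟩, rfl⟩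
      · exact Or.inr ⟨x, ⟨hy, h⟩, rfl⟩
    have hCf : IsClosed (f ⁻¹' C) := hC.preimage hf
    obtain ⟨xa, hxa⟩ := hA'
    obtain ⟨xb, hxb⟩ := hB'
    obtain ⟨y, hyC, ⟨a, ha, hay⟩, b, hb, hby⟩ :=
      (isPreconnected_closed_iff.1 hCc.isPreconnected) _ _ (hc _ (hCf.inter hA))
        (hc _ (hCf.inter hB)) h1 ⟨f xa, hxa.1, xa, hxa, rfl⟩ ⟨f xb, hxb.1, xb, hxb, rfl⟩
    have hfib : f ⁻¹' {y} ⊆ f ⁻¹' C := by
      intro x hx
      rw [mem_preimage, mem_singleton_iff] at hx
      show f x ∈ C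
      rw [hx]
      exact hyC
    obtain ⟨x, hx, hx'⟩ := (isPreconnected_closed_iff.1 (hm y).isPreconnected) A B hA hB
      (hfib.trans hsub) ⟨a, hay, ha.2⟩ ⟨b, hby, hb.2⟩
    exact ⟨x, hfib hx, hx'⟩

/-- Any two points of a connected set can be joined in a thickening. -/
lemma joined_thickening (A : Set ℂ) (hA : IsConnected A) (δ : ℝ) (hδ : 0 < δ) {p q : ℂ}
    (hp : p ∈ A) (hq : q ∈ A) : JoinedIn (thickening δ A) p q := by
  have hcon : IsConnected (thickening δ A) := by
    have h1 : thickening δ A = ⋃ x : A, (A ∪ ball (x : ℂ) δ) := by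
      ext z
      rw [mem_thickening_iff, mem_iUnion]
      constructor
      · rintro ⟨x, hx, hz⟩
        exact ⟨⟨x, hx⟩, Or.inr (by rwa [mem_ball])⟩
      · rintro ⟨x, hz | hz⟩
        · exact ⟨z, hz, by simpa using hδ⟩
        · exact ⟨x, x.2, by rwa [mem_ball] at hz⟩
    rw [h1]
    refine ⟨⟨p, mem_iUnion.2 ⟨⟨p, hp⟩, Or.inl hp⟩⟩, ?_⟩
    refine isPreconnected_iUnion ⟨p, mem_iInter.2 fun _ => Or.inl hp⟩ fun x => ?_
    exact hA.isPreconnected.union (x : ℂ) x.2 (mem_ball_self hδ)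
      (convex_ball _ _).isPreconnected
  have hpath : IsPathConnected (thickening δ A) :=
    (isOpen_thickening.isConnected_iff_isPathConnected).1 hcon
  exact hpath.joinedIn p (self_subset_thickening hδ A hp) q (self_subset_thickening hδ A hq)

/-- No compact subset of the plane has a continuous surjection with connected fibres onto the
complete graph on five vertices. -/
theorem no_map (S : Set (EuclideanSpace ℝ (Fin 2))) (hS : IsCompact S) (f : ↥S → K1H58.K5.Sp)
    (hf : Continuous f) (hs : Function.Surjective f) (hm : ∀ y, IsConnected (f ⁻¹' {y})) :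
    False := by
  classical
  have : CompactSpace S := isCompact_iff_compactSpace.1 hS
  let e : EuclideanSpace ℝ (Fin 2) ≃ₗᵢ[ℝ] ℂ := Complex.orthonormalBasisOneI.repr.symm
  let g : S → ℂ := fun x => e x
  have hg : Continuous g := e.continuous.comp continuous_subtype_val
  have hginj : Function.Injective g := fun x y h => Subtype.ext (e.injective h)
  let A : Fin 5 → Fin 5 → Set ℂ := fun a b => g '' (f ⁻¹' K1H58.K5.edge a b)
  have hclosed : ∀ a b, IsClosed (f ⁻¹' K1H58.K5.edge a b) := fun a b =>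
    (K1H58.K5.edge_compact a b).isClosed.preimage hf
  have hAcomp : ∀ a b, IsCompact (A a b) := fun a b => (hclosed a b).isCompact.image hg
  have hAconn : ∀ a b, IsConnected (A a b) := fun a b =>
    (preimage_connected f hf hf.isClosedMap hs hm _ (K1H58.K5.edge_compact a b).isClosed
      (K1H58.K5.edge_conn a b)).image _ hg.continuousOn
  have hdisj : ∀ a b c d : Fin 5, a ≠ c → a ≠ d → b ≠ c → b ≠ d → Disjoint (A a b) (A c d) := by
    intro a b c d h1 h2 h3 h4
    refine (Set.disjoint_image_iff hginj).2 ?_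
    exact Disjoint.preimage f (K1H58.K5.edge_disj h1 h2 h3 h4)
  have hex : ∀ q : Fin 5 × Fin 5 × Fin 5 × Fin 5, ∃ δ : ℝ, 0 < δ ∧
      (q.1 ≠ q.2.2.1 → q.1 ≠ q.2.2.2 → q.2.1 ≠ q.2.2.1 → q.2.1 ≠ q.2.2.2 →
        Disjoint (thickening δ (A q.1 q.2.1)) (thickening δ (A q.2.2.1 q.2.2.2))) := by
    intro q
    by_cases h : q.1 ≠ q.2.2.1 ∧ q.1 ≠ q.2.2.2 ∧ q.2.1 ≠ q.2.2.1 ∧ q.2.1 ≠ q.2.2.2
    · obtain ⟨δ, hδ, hd⟩ := (hdisj _ _ _ _ h.1 h.2.1 h.2.2.1 h.2.2.2).exists_thickenings
        (hAcomp _ _) (hAcomp _ _).isClosed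
      exact ⟨δ, hδ, fun _ _ _ _ => hd⟩
    · exact ⟨1, one_pos, fun h1 h2 h3 h4 => absurd ⟨h1, h2, h3, h4⟩ h⟩
  choose δ hδ hd using hex
  let δ₀ : ℝ := Finset.univ.inf' ⟨(0, 0, 0, 0), Finset.mem_univ _⟩ δ
  have hδ₀ : 0 < δ₀ := (Finset.lt_inf'_iff _).2 fun q _ => hδ q
  have hle : ∀ q, δ₀ ≤ δ q := fun q => Finset.inf'_le _ (Finset.mem_univ q)
  choose x hx using fun a => hs (K1H58.K5.vert a)
  refine Helper479.Bond.VK.k5_joined (fun a => g (x a)) (fun a b => thickening δ₀ (A a b)) ?_ ?_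
  · intro a b _
    refine joined_thickening _ (hAconn a b) δ₀ hδ₀ ⟨x a, ?_, rfl⟩ ⟨x b, ?_, rfl⟩
    · rw [mem_preimage, hx]; exact K1H58.K5.left_mem a b
    · rw [mem_preimage, hx]; exact K1H58.K5.right_mem a b
  · intro a b c d _ _ h1 h2 h3 h4
    exact (hd (a, b, c, d) h1 h2 h3 h4).mono (thickening_mono (hle _) _)
      (thickening_mono (hle _) _)

/-- The negation of the preceding statement: Take any nondegenerate locally connected metric continuum Y in which every subcontinuum without cut points is completely regular. Then some plane continuum X has a continuous open surjection onto Y whose fibers are all nondegenerate decomposable continua. -/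
theorem result :
    ¬ (∀ (Y : Type) [TopologicalSpace Y] [TopologicalSpace.MetrizableSpace Y] [CompactSpace Y]
      [ConnectedSpace Y] [LocallyConnectedSpace Y] [Nontrivial Y],
      (∀ K : Set Y, IsClosed K → IsConnected K → (∀ p ∈ K, IsPreconnected (K \ {p})) →
        ∀ L : Set Y, L ⊆ K → IsClosed L → IsConnected L → L.Nontrivial →
          ∃ U : Set Y, IsOpen U ∧ (U ∩ K).Nonempty ∧ U ∩ K ⊆ L) →
      ∃ (S : Set (EuclideanSpace ℝ (Fin 2))) (f : ↥S → Y),
        IsCompact S ∧ IsConnected S ∧ Continuous f ∧ IsOpenMap f ∧ Function.Surjective f ∧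
        ∀ y : Y,
          IsConnected (Subtype.val '' (f ⁻¹' {y})) ∧
          (Subtype.val '' (f ⁻¹' {y})).Nontrivial ∧
          ∃ A B : Set (EuclideanSpace ℝ (Fin 2)),
            IsClosed A ∧ IsConnected A ∧ IsClosed B ∧ IsConnected B ∧
            A ⊂ Subtype.val '' (f ⁻¹' {y}) ∧ B ⊂ Subtype.val '' (f ⁻¹' {y}) ∧
            A ∪ B = Subtype.val '' (f ⁻¹' {y})) := by
  intro hall
  obtain ⟨S, f, hS, -, hf, -, hs, hfib⟩ := hall K1H58.K5.Sp (by
    intro K _ _ _ L hLK hL hLc hLn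
    obtain ⟨U, hU, hne, hUL⟩ := K1H58.K5.interior_nonempty L hL hLc hLn
    obtain ⟨u, hu⟩ := hne
    exact ⟨U, hU, ⟨u, hu, hLK (hUL hu)⟩, fun z hz => hUL hz.1⟩)
  refine no_map S hS f hf hs fun y => ?_
  have h1 := (hfib y).1
  refine ⟨?_, ?_⟩
  · obtain ⟨_, x, hx, -⟩ := h1.nonempty
    exact ⟨x, hx⟩
  · exact IsEmbedding.subtypeVal.isInducing.isPreconnected_image.1 h1.isPreconnected

end Pool.Agent.S14090
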