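import Pool.Statements.S15186
import Pool.Agent.Results.MP_a8f5d0_lc.LogSupply

set_option autoImplicit false
open Pool Pool.MP_a8f5d0_lc

namespace Pool.Agent.S15186

/-- The negation of the preceding statement: For each ε,α,β in (0,1) there is a supply s such that for all n, m and supplies ≥ s, some ε-jointly private mechanism on [0,1]-valued gross-substitute profiles always outputs feasible allocations with welfare ≥ OPT − αn with probability ≥ 1−β. -/
theorem result :
    ¬ (∀ ε α β : ℝ, 0 < ε → ε < 1 → 0 < α → α < 1 → 0 < β → β < 1 →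
  ∃ s : ℕ, ∀ n m : ℕ, ∀ supply : Fin m → ℕ, (∀ j, s ≤ supply j) →
  ∃ M : (Fin n → Finset (Fin m) → ℝ) → PMF (Fin n → Finset (Fin m)),
    (∀ v : Fin n → Finset (Fin m) → ℝ,
      (∀ i, (∀ S, 0 ≤ v i S ∧ v i S ≤ 1) ∧
        ∀ p q : Fin m → ℝ, p ≤ q → ∀ S : Finset (Fin m),
          (∀ T : Finset (Fin m), v i T - ∑ j ∈ T, p j ≤ v i S - ∑ j ∈ S, p j) →
          ∃ T : Finset (Fin m),
            (∀ U : Finset (Fin m), v i U - ∑ j ∈ U, q j ≤ v i T - ∑ j ∈ T, q j) ∧
            ∀ j ∈ S, q j = p j → j ∈ T) →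
      (∀ ω ∈ (M v).support, ∀ j : Fin m,
          (Finset.univ.filter (fun k : Fin n => j ∈ ω k)).card ≤ supply j) ∧
      (M v).toOuterMeasure {ω | ∀ ω' : Fin n → Finset (Fin m),
          (∀ j : Fin m, (Finset.univ.filter (fun k : Fin n => j ∈ ω' k)).card ≤ supply j) →
          ∑ k, v k (ω' k) - α * (n : ℝ) ≤ ∑ k, v k (ω k)} ≥ ENNReal.ofReal (1 - β)) ∧
    (∀ v : Fin n → Finset (Fin m) → ℝ,
      (∀ i, (∀ S, 0 ≤ v i S ∧ v i S ≤ 1) ∧
        ∀ p q : Fin m → ℝ, p ≤ q → ∀ S : Finset (Fin m),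
          (∀ T : Finset (Fin m), v i T - ∑ j ∈ T, p j ≤ v i S - ∑ j ∈ S, p j) →
          ∃ T : Finset (Fin m),
            (∀ U : Finset (Fin m), v i U - ∑ j ∈ U, q j ≤ v i T - ∑ j ∈ T, q j) ∧
            ∀ j ∈ S, q j = p j → j ∈ T) →
      ∀ (i : Fin n) (w : Finset (Fin m) → ℝ),
      ((∀ S, 0 ≤ w S ∧ w S ≤ 1) ∧
        ∀ p q : Fin m → ℝ, p ≤ q → ∀ S : Finset (Fin m),
          (∀ T : Finset (Fin m), w T - ∑ j ∈ T, p j ≤ w S - ∑ j ∈ S, p j) →
          ∃ T : Finset (Fin m),
            (∀ U : Finset (Fin m), w U - ∑ j ∈ U, q j ≤ w T - ∑ j ∈ T, q j) ∧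
            ∀ j ∈ S, q j = p j → j ∈ T) →
      ∀ S : Set ({k : Fin n // k ≠ i} → Finset (Fin m)),
        (M v).toOuterMeasure {ω | (fun k : {k : Fin n // k ≠ i} => ω k.1) ∈ S} ≤
          ENNReal.ofReal (Real.exp ε) *
            (M (Function.update v i w)).toOuterMeasure
              {ω | (fun k : {k : Fin n // k ≠ i} => ω k.1) ∈ S})) := by
  intro hmain
  classical
  obtain ⟨s, hs⟩ := hmain (1 / 2) (1 / 1000) (1 / 2) (by norm_num) (by norm_num) (by norm_num)
    (by norm_num) (by norm_num) (by norm_num)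
  obtain ⟨s₀, hs₀, hsmall⟩ := Pool.Agent.Helper555.JDP.eventually_small (1 / 2)
    ((1 - 1 / 2) / 4) (by norm_num) (by norm_num)
  set t : ℕ := max s s₀ with ht
  have hst : s ≤ t := le_max_left _ _
  have hs₀t : s₀ ≤ t := le_max_right _ _
  obtain ⟨m, hm⟩ := exists_nat_gt (8 * Real.exp (1 / 2 * (t : ℝ)) / (1 - 1 / 2))
  refine Pool.Agent.Results.MP_a8f5d0_lc.LogSupply.not_suffices
    Pool.Agent.Helper555.JDP.GrossSubstitutes
    (fun m b p => Pool.Agent.Helper555.JDP.single_mem_GS b p) (1 / 2) (1 / 1000) (1 / 2)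
    le_rfl (by norm_num) (by norm_num) m t (lt_of_lt_of_le hs₀ hs₀t) hm (hsmall t hs₀t) ?_
  apply Pool.Agent.Helper555.JDP.Suffices.weak
  have hGS : ∀ v : Finset (Fin m) → ℝ, v ∈ Pool.Agent.Helper555.JDP.GrossSubstitutes m ↔
      ((∀ S, 0 ≤ v S ∧ v S ≤ 1) ∧
        ∀ p q : Fin m → ℝ, p ≤ q → ∀ S : Finset (Fin m),
          (∀ T : Finset (Fin m), v T - ∑ j ∈ T, p j ≤ v S - ∑ j ∈ S, p j) →
          ∃ T : Finset (Fin m),
            (∀ U : Finset (Fin m), v U - ∑ j ∈ U, q j ≤ v T - ∑ j ∈ T, q j) ∧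
            ∀ j ∈ S, q j = p j → j ∈ T) := by
    intro v
    exact Iff.rfl
  have hex : ∀ sup : Fin m → ℕ, (∀ j, t ≤ sup j) → ∃ M : (Fin (m * (2 * t)) →
      Pool.Agent.Helper555.JDP.Valuation m) →
      PMF (Pool.Agent.Helper555.JDP.Allocation (m * (2 * t)) m),
      Pool.Agent.Helper555.JDP.JointlyPrivate (Pool.Agent.Helper555.JDP.GrossSubstitutes m)
        (1 / 2) M ∧
      ∀ v : Fin (m * (2 * t)) → Pool.Agent.Helper555.JDP.Valuation m,
        (∀ i, v i ∈ Pool.Agent.Helper555.JDP.GrossSubstitutes m) →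
        (∀ ω ∈ (M v).support, Pool.Agent.Helper555.JDP.Feasible sup ω) ∧
        1 - 1 / 2 ≤ Pool.Agent.Helper555.JDP.Pr (M v)
          {ω | Pool.Agent.Helper555.JDP.OPT sup v - (1 / 1000) * ((m * (2 * t) : ℕ) : ℝ) ≤
            Pool.Agent.Helper555.JDP.welfare v ω} := by
    intro sup hsup
    obtain ⟨M, hM1, hM2⟩ := hs (m * (2 * t)) m sup (fun j => le_trans hst (hsup j))
    refine ⟨M, ?_, ?_⟩
    · intro i v w hv hw S
      have h := hM2 v (fun i => (hGS _).mp (hv i)) i w ((hGS _).mp hw) S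
      unfold Pool.Agent.Helper555.JDP.Pr
      have htop : ENNReal.ofReal (Real.exp (1 / 2)) *
          (M (Function.update v i w)).toOuterMeasure
            {ω | (fun k : {k : Fin (m * (2 * t)) // k ≠ i} => ω k.1) ∈ S} ≠ ⊤ := by
        refine ENNReal.mul_ne_top ENNReal.ofReal_ne_top ?_
        rw [PMF.toOuterMeasure_apply_fintype]
        refine ENNReal.sum_ne_top.mpr fun ω _ => ?_
        by_cases hω : ω ∈ {ω : Fin (m * (2 * t)) → Finset (Fin m) |
            (fun k : {k : Fin (m * (2 * t)) // k ≠ i} => ω k.1) ∈ S}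
        · rw [Set.indicator_of_mem hω]
          exact PMF.apply_ne_top _ _
        · rw [Set.indicator_of_notMem hω]
          exact ENNReal.zero_ne_top
      have h2 := ENNReal.toReal_mono htop h
      rw [ENNReal.toReal_mul, ENNReal.toReal_ofReal (Real.exp_pos _).le] at h2
      exact h2
    · intro v hv
      obtain ⟨h1, h2⟩ := hM1 v (fun i => (hGS _).mp (hv i))
      refine ⟨fun ω hω j => ?_, ?_⟩
      · have := h1 ω hω j
        convert this
      · have h3 : ENNReal.ofReal (1 - 1 / 2) ≤ (M v).toOuterMeasure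
            {ω | Pool.Agent.Helper555.JDP.OPT sup v - (1 / 1000) * ((m * (2 * t) : ℕ) : ℝ) ≤
              Pool.Agent.Helper555.JDP.welfare v ω} := by
          refine le_trans h2 ((M v).toOuterMeasure.mono ?_)
          intro ω hω
          simp only [Set.mem_ofPred_eq] at hω ⊢
          have h4 : Pool.Agent.Helper555.JDP.OPT sup v ≤
              Pool.Agent.Helper555.JDP.welfare v ω + (1 / 1000) * ((m * (2 * t) : ℕ) : ℝ) := by
            refine Pool.Agent.Helper555.JDP.OPT_le sup v _ fun ω' hω' => ?_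
            have h5 := hω ω' (fun j => by
              have := hω' j
              convert this)
            unfold Pool.Agent.Helper555.JDP.welfare
            linarith
          linarith
        have h6 := ENNReal.toReal_mono (by
          rw [PMF.toOuterMeasure_apply_fintype]
          refine ENNReal.sum_ne_top.mpr fun ω _ => ?_
          by_cases hω : ω ∈ {ω : Fin (m * (2 * t)) → Finset (Fin m) |
              Pool.Agent.Helper555.JDP.OPT sup v - (1 / 1000) * ((m * (2 * t) : ℕ) : ℝ) ≤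
              Pool.Agent.Helper555.JDP.welfare v ω}
          · rw [Set.indicator_of_mem hω]
            exact PMF.apply_ne_top _ _
          · rw [Set.indicator_of_notMem hω]
            exact ENNReal.zero_ne_top) h3
        rw [ENNReal.toReal_ofReal (by norm_num)] at h6
        exact h6
  refine ⟨fun sup => if h : ∀ j, t ≤ sup j then Classical.choose (hex sup h) else
    fun _ => PMF.pure (fun _ => ∅), fun sup hsup => ?_⟩
  have h := Classical.choose_spec (hex sup hsup)
  simp only [dif_pos hsup]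
  exact h

end Pool.Agent.S15186
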