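import Pool.Statements.S17877
-- import your own Pool.Agent.* helpers here
import Pool.Agent.K1H93.W.Semi
import Pool.Agent.K1H93.W.Select

set_option autoImplicit false
open Pool Pool.MP_9b74c8_nt

namespace Pool.Agent.S17877

open Pool.Agent.K1H93.W

/-- the sum of the subset products is the product of `1 + q` -/
theorem sum_pr_powerset (Q : Finset ℕ) : ∑ T ∈ Q.powerset, pr T = ∏ q ∈ Q, (1 + q) := by
  rw [Finset.prod_one_add]
  rfl

/-- `∏ (1 + q) ≥ (∏ q) (1 + ∑ 1/q)` -/
theorem prod_one_add_ge (Q : Finset ℕ) (hQ : ∀ q ∈ Q, q.Prime) :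
    (pr Q : ℝ) * (1 + ∑ q ∈ Q, (1 : ℝ) / q) ≤ ((∏ q ∈ Q, (1 + q) : ℕ) : ℝ) := by
  classical
  induction Q using Finset.induction_on with
  | empty => simp [pr]
  | insert a s ha ih =>
    have hpos : (0 : ℝ) < a := by exact_mod_cast (hQ a (Finset.mem_insert_self _ _)).pos
    have ih' := ih (fun q hq => hQ q (Finset.mem_insert_of_mem hq))
    rw [pr_insert ha, Finset.sum_insert ha, Finset.prod_insert ha]
    push_cast
    push_cast at ih'
    have hS : (0 : ℝ) ≤ ∑ q ∈ s, (1 : ℝ) / q := Finset.sum_nonneg (fun q _ => by positivity)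
    have hP : (0 : ℝ) ≤ (pr s : ℝ) := Nat.cast_nonneg _
    have h1 : (a : ℝ) * pr s * (1 + (1 / a + ∑ q ∈ s, (1 : ℝ) / q)) ≤
        (1 + a) * (pr s * (1 + ∑ q ∈ s, (1 : ℝ) / q)) := by
      have : (a : ℝ) * pr s * (1 + (1 / a + ∑ q ∈ s, (1 : ℝ) / q)) =
          a * (pr s * (1 + ∑ q ∈ s, (1 : ℝ) / q)) + pr s := by
        field_simp
        ring
      rw [this]
      nlinarith [mul_nonneg hP hS]
    exact h1.trans (mul_le_mul_of_nonneg_left ih' (by positivity))

/-- `σ(m)/m ≤ exp (2 ∑_{p ∣ m} 1/p)` -/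
theorem sigma_le (m : ℕ) (hm : 0 < m) :
    ((∑ i ∈ m.divisors, i : ℕ) : ℝ) / (m : ℝ) ≤
      Real.exp (2 * ∑ p ∈ m.primeFactors, (1 : ℝ) / p) := by
  have h0 : (∑ i ∈ m.divisors, i : ℕ) = ∏ p ∈ m.primeFactors,
      ∑ k ∈ Finset.range (m.factorization p + 1), p ^ k := Nat.sum_divisors hm.ne'
  have h1 : (m : ℝ) = ∏ p ∈ m.primeFactors, (p : ℝ) ^ m.factorization p := by
    conv_lhs => rw [← Nat.prod_factorization_pow_eq_self hm.ne']
    rw [Finsupp.prod, Nat.support_factorization]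
    push_cast
    rfl
  rw [h0]
  conv_lhs => rw [h1]
  push_cast
  rw [← Finset.prod_div_distrib, Finset.mul_sum, Real.exp_sum]
  apply Finset.prod_le_prod
  · intro p hp
    positivity
  · intro p hp
    have hp' := Nat.prime_of_mem_primeFactors hp
    have hp2 : (2 : ℝ) ≤ p := by exact_mod_cast hp'.two_le
    have hpp : (0 : ℝ) < (p : ℝ) ^ m.factorization p := by positivity
    rw [div_le_iff₀ hpp]
    have hg : (∑ k ∈ Finset.range (m.factorization p + 1), (p : ℝ) ^ k) * (p - 1) =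
        (p : ℝ) ^ (m.factorization p + 1) - 1 := by
      exact geom_sum_mul _ _
    have hx : 1 + 2 * (1 / (p : ℝ)) ≤ Real.exp (2 * (1 / (p : ℝ))) := by
      have := Real.add_one_le_exp (2 * (1 / (p : ℝ)))
      linarith
    have h2 : (∑ k ∈ Finset.range (m.factorization p + 1), (p : ℝ) ^ k) ≤
        (1 + 2 * (1 / (p : ℝ))) * (p : ℝ) ^ m.factorization p := by
      have hp1 : (0 : ℝ) < p - 1 := by linarith
      rw [← mul_le_mul_iff_left₀ hp1, hg]
      have h3 : (1 + 2 * (1 / (p : ℝ))) * (p : ℝ) ^ m.factorization p * (p - 1) =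
          (p : ℝ) ^ m.factorization p * ((1 + 2 * (1 / (p : ℝ))) * (p - 1)) := by ring
      have h4 : (p : ℝ) ≤ (1 + 2 * (1 / (p : ℝ))) * (p - 1) := by
        have : (1 + 2 * (1 / (p : ℝ))) * (p - 1) = p + (1 - 2 / p) := by
          field_simp
          ring
        rw [this]
        have : 2 / (p : ℝ) ≤ 1 := by rw [div_le_one (by linarith)]; exact hp2
        linarith
      rw [h3, pow_succ]
      have := mul_le_mul_of_nonneg_left h4 hpp.le
      linarith
    exact h2.trans (mul_le_mul_of_nonneg_right hx hpp.le)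

/-- There is a real constant C such that every weird number m (abundant, with no subset of its proper divisors summing to m) has sum of divisors divided by m at most C. -/
theorem result :
    ∃ C : ℝ, ∀ m : ℕ, 0 < m →
      m < ∑ i ∈ m.properDivisors, i →
      (¬ ∃ s ⊆ m.properDivisors, ∑ i ∈ s, i = m) →
      ((∑ i ∈ m.divisors, i : ℕ) : ℝ) / (m : ℝ) ≤ C := by
  classical
  obtain ⟨K, hK⟩ := select
  refine ⟨Real.exp (2 * K), ?_⟩
  intro m hm _ hw
  by_contra hC
  push Not at hC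
  have h1 : K ≤ ∑ p ∈ m.primeFactors, (1 : ℝ) / p := by
    by_contra h
    push Not at h
    have h2 := sigma_le m hm
    have h3 : Real.exp (2 * ∑ p ∈ m.primeFactors, (1 : ℝ) / p) ≤ Real.exp (2 * K) :=
      Real.exp_le_exp.2 (by linarith)
    linarith
  obtain ⟨b, i, j, c, hW⟩ := hK m.primeFactors (fun p hp => Nat.prime_of_mem_primeFactors hp) h1
  set Q := m.primeFactors.filter (fun p => p < 2 ^ b) with hQdef
  have hQp : ∀ q ∈ Q, q.Prime := fun q hq =>
    Nat.prime_of_mem_primeFactors (Finset.mem_filter.1 hq).1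
  have hab : 3 * pr Q ≤ ∑ T ∈ Q.powerset, pr T := by
    rw [sum_pr_powerset]
    have h4 := prod_one_add_ge Q hQp
    have h5 : (10 : ℝ) ≤ ∑ q ∈ Q, (1 : ℝ) / q := hW
    have h6 : (0 : ℝ) ≤ (pr Q : ℝ) := Nat.cast_nonneg _
    have h7 : (3 : ℝ) * pr Q ≤ ((∏ q ∈ Q, (1 + q) : ℕ) : ℝ) := by nlinarith
    exact_mod_cast h7
  obtain ⟨s, hs, hsum⟩ := c.semiperfect hab
  have hdvd : pr Q ∣ m := by
    have h8 : pr Q ∣ ∏ p ∈ m.primeFactors, p :=
      Finset.prod_dvd_prod_of_subset _ _ _ (Finset.filter_subset _ _)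
    exact h8.trans (Nat.prod_primeFactors_dvd m)
  obtain ⟨k, hk⟩ := hdvd
  have hkpos : 0 < k := by
    rcases Nat.eq_zero_or_pos k with h | h
    · rw [h, mul_zero] at hk; omega
    · exact h
  apply hw
  refine ⟨s.image (fun d => d * k), ?_, ?_⟩
  · intro x hx
    obtain ⟨d, hd, rfl⟩ := Finset.mem_image.1 hx
    obtain ⟨h9, h10⟩ := hs d hd
    rw [Nat.mem_properDivisors]
    refine ⟨?_, ?_⟩
    · rw [hk]; exact Nat.mul_dvd_mul_right h9 k
    · show d * k < m
      calc d * k < pr Q * k := Nat.mul_lt_mul_of_pos_right h10 hkpos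
        _ = m := hk.symm
  · rw [Finset.sum_image]
    · rw [← Finset.sum_mul, hsum, ← hk]
    · intro x _ y _ hxy
      exact Nat.eq_of_mul_eq_mul_right hkpos hxy

end Pool.Agent.S17877
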